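import Mathlib

set_option autoImplicit false

namespace Pool.Agent.Results.MP_e6c168_lc.Sqrt

open Finset Classical

/-- `P n d` is the party holding contract `n` on day `d`; on the last day this is `n` -/
def Fast {N : ℕ} (P : Fin N → Equiv.Perm (Fin N)) : Prop := ∀ n d : Fin N, d.1 + 1 = N → P n d = n

/-- number of envelopes (day `d`, recipient `j`) sent by party `i` -/
noncomputable def cost {N : ℕ} (P : Fin N → Equiv.Perm (Fin N)) (i : Fin N) : ℕ :=
  (univ.filter fun p : Fin N × Fin N => ∃ h : p.1.1 + 1 < N, ∃ n, P n p.1 = i ∧ P n ⟨p.1.1 + 1, h⟩ = p.2).card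

def g (N s n d : ℕ) : ℕ := if d + 1 = N then n else if d + s < n then d + s else
  if d + 1 + s < N then d + 1 + s else d + 1 + s - N

lemma main (N : ℕ) : ∃ P : Fin N → Equiv.Perm (Fin N), Fast P ∧ ∀ i, cost P i ≤ 20 * (N.sqrt + 1) := by
  have hk := Nat.lt_succ_sqrt N
  rw [Nat.succ_eq_add_one] at hk
  generalize N.sqrt + 1 = k at *
  have le : ∀ n, n / k ≤ n := fun n => Nat.div_le_self n k
  refine ⟨fun n => Equiv.ofBijective (fun d => ⟨g N (n / k) n d, by have := le n; unfold g; split_ifs <;> omega⟩)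
    (Finite.injective_iff_bijective.1 fun a b h => Fin.ext ?_), fun n d h => Fin.ext (if_pos h), fun i => ?_⟩
  · have h : g N (n / k) n a = g N (n / k) n b := congrArg Fin.val h
    have := le n
    unfold g at h; split_ifs at h <;> omega
  refine (card_le_card_of_injOn (fun p => (p.1.1, p.2.1)) (t := ((range k).biUnion fun s =>
      ({i.1 - s, i.1 + N - s, i.1 - s - 1, i.1 + N - s - 1} ×ˢ {i.1 + 1, i.1 + 1 - N, i.1 + 2, i.1 + 2 - N} : Finset (ℕ × ℕ))) ∪
      (({0, 1, i.1 + 1, i.1 + 2} ×ˢ range k).image fun q => (N - 2, q.1 * k + q.2))) (fun p hp => ?_)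
      fun a _ b _ h => Prod.ext (Fin.ext (congrArg Prod.fst h)) (Fin.ext (congrArg Prod.snd h))).trans
    ((card_union_le _ _).trans ((add_le_add (card_biUnion_le_card_mul _ _ 16 fun s _ => ?_)
      (card_image_le.trans ((card_product _ _).trans_le (Nat.mul_le_mul_right _ card_le_four)))).trans ?_))
  · obtain ⟨h, n, h1, h2⟩ := (mem_filter.1 hp).2
    have h1 : g N (n / k) n p.1 = i := congrArg Fin.val h1
    have h2 : g N (n / k) n (p.1 + 1) = p.2 := congrArg Fin.val h2
    have := le n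
    have k0 : 0 < k := Nat.pos_of_ne_zero (by rintro rfl; omega)
    simp only [coe_union, Set.mem_union, mem_coe, mem_biUnion, mem_image, mem_product, mem_insert, mem_singleton,
      mem_range, Prod.mk.injEq]
    by_cases e : p.1.1 + 1 + 1 = N
    · refine .inr ⟨(n / k, n % k), ⟨?_, Nat.mod_lt _ k0⟩, by omega, (Nat.div_add_mod' _ _).trans ?_⟩
      · unfold g at h1; simp only; generalize n.1 / k = s at *; split_ifs at h1 <;> omega
      · rw [← h2, g, if_pos e]
    · refine .inl ⟨n / k, Nat.div_lt_of_lt_mul (by omega), ?_⟩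
      unfold g at h1 h2; split_ifs at h1 h2 <;> omega
  · exact (card_product _ _).trans_le (Nat.mul_le_mul card_le_four card_le_four)
  · rw [card_range]; omega

theorem result : (∀ N : ℕ, ∃ P : Fin N → Equiv.Perm (Fin N), Fast P ∧ ∀ i, cost P i ≤ 20 * (N.sqrt + 1)) ∧
    ¬ ∃ c : ℝ, 0 < c ∧ ∀ N : ℕ, 2 ≤ N → ∀ P : Fin N → Equiv.Perm (Fin N), Fast P → ∃ i, c * N ≤ cost P i := by
  refine ⟨main, fun ⟨c, hc, h⟩ => ?_⟩
  obtain ⟨k, hk⟩ := exists_nat_gt (40 / c)
  obtain ⟨P, h1, h2⟩ := main ((k + 2) * (k + 2))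
  obtain ⟨i, hi⟩ := h _ (by nlinarith) P h1
  have := hi.trans (Nat.cast_le.2 (h2 i))
  rw [Nat.sqrt_eq] at this
  rw [div_lt_iff₀ hc] at hk
  push_cast at this
  nlinarith [(Nat.cast_nonneg k : (0 : ℝ) ≤ k)]

end Pool.Agent.Results.MP_e6c168_lc.Sqrt
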